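import Mathlib

/-!
MP_020c1a_co, Q1: the maximum p-singular families of the finite general linear groups are not
exactly the double-translates of the Sylow p-subgroups.
-/

namespace Pool.Agent.Results.MP_020c1a_co.SylowFamilies

open Matrix

/-- `F` is a `p`-singular family: the order of `g * h⁻¹` is divisible by `p` for all distinct
`g, h ∈ F`. -/
def IsSingularFamily {G : Type} [Group G] (p : ℕ) (F : Set G) : Prop :=
  ∀ g ∈ F, ∀ h ∈ F, g ≠ h → p ∣ orderOf (g * h⁻¹)

/-- `F` is a maximum `p`-singular family. -/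
def IsMaximum {G : Type} [Group G] (p : ℕ) (F : Set G) : Prop :=
  IsSingularFamily p F ∧ ∀ F' : Set G, IsSingularFamily p F' → F'.ncard ≤ F.ncard

/-- The double-translate `g S h`. -/
def doubleTranslate {G : Type} [Group G] (g h : G) (S : Set G) : Set G :=
  {x | ∃ s ∈ S, x = g * s * h}

/-- The assertion of Q1 for one prime, one finite field and one dimension. -/
def Holds (p : ℕ) (K : Type) [Field K] (n : ℕ) : Prop :=
  ∀ F : Set (GL (Fin n) K), IsMaximum p F ↔
    ∃ (P : Sylow p (GL (Fin n) K)) (g h : GL (Fin n) K), F = doubleTranslate g h P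

section general

variable {G : Type} [Group G]

theorem quot_pow (p : ℕ) (P : Sylow p G) (g h x y : G) (hx : x ∈ doubleTranslate g h (P : Set G))
    (hy : y ∈ doubleTranslate g h (P : Set G)) : ∃ m : ℕ, (x * y⁻¹) ^ p ^ m = 1 := by
  obtain ⟨s, hs, rfl⟩ := hx
  obtain ⟨t, ht, rfl⟩ := hy
  have hst : s * t⁻¹ ∈ P := P.mul_mem hs (P.inv_mem ht)
  obtain ⟨m, hm⟩ := P.isPGroup' ⟨s * t⁻¹, hst⟩
  refine ⟨m, ?_⟩
  have e : g * s * h * (g * t * h)⁻¹ = g * (s * t⁻¹) * g⁻¹ := by group
  rw [e, conj_pow]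
  have : (s * t⁻¹) ^ p ^ m = 1 := congrArg Subtype.val hm
  rw [this]
  group

theorem ncard_le_index [Finite G] (p : ℕ) (C : Subgroup G) (hC : ¬ p ∣ Nat.card C) (F : Set G)
    (hF : IsSingularFamily p F) : F.ncard ≤ C.index := by
  have hinj : Set.InjOn (fun x : G => (QuotientGroup.mk x⁻¹ : G ⧸ C)) F := by
    intro x hx y hy hxy
    by_contra hne
    have h1 : x * y⁻¹ ∈ C := by
      have := QuotientGroup.eq.1 hxy
      rwa [inv_inv] at this
    have h2 := hF x hx y hy hne
    have h3 : orderOf (x * y⁻¹) ∣ Nat.card C := by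
      have := orderOf_dvd_natCard (⟨x * y⁻¹, h1⟩ : C)
      rwa [← Subgroup.orderOf_coe] at this
    exact hC (h2.trans h3)
  rw [← Set.InjOn.ncard_image hinj, Subgroup.index, ← Set.ncard_univ]
  exact Set.ncard_le_ncard (Set.subset_univ _) (Set.toFinite _)

end general

section field

variable (p : ℕ) [hp : Fact p.Prime] (K : Type) [Field K] [Finite K] [CharP K p] (n : ℕ)

theorem card_sylow (P : Sylow p (GL (Fin n) K)) : Nat.card P = Nat.card K ^ (n * (n - 1) / 2) := by
  have := Fintype.ofFinite K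
  obtain ⟨k, -, hk⟩ := FiniteField.card K p
  have hq1 : 1 < Nat.card K := Finite.one_lt_card
  rw [P.card_eq_multiplicity, Matrix.card_GL_field, ← Finset.prod_range
    (fun i => Fintype.card K ^ n - Fintype.card K ^ i)]
  rw [Nat.card_eq_fintype_card] at hq1 ⊢
  set q := Fintype.card K with hq
  have e1 : ∏ i ∈ Finset.range n, (q ^ n - q ^ i) =
      q ^ (n * (n - 1) / 2) * ∏ i ∈ Finset.range n, (q ^ (n - i) - 1) := by
    rw [← Finset.sum_range_id, ← Finset.prod_pow_eq_pow_sum, ← Finset.prod_mul_distrib]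
    apply Finset.prod_congr rfl
    intro i hi
    rw [Finset.mem_range] at hi
    rw [Nat.mul_sub, mul_one, ← pow_add, Nat.add_sub_cancel' hi.le]
  have e2 : ¬ p ∣ ∏ i ∈ Finset.range n, (q ^ (n - i) - 1) := by
    rw [Prime.dvd_finsetProd_iff hp.out.prime]
    rintro ⟨i, hi, hdvd⟩
    rw [Finset.mem_range] at hi
    have h1 : p ∣ q ^ (n - i) := by
      rw [hk]
      exact dvd_pow (dvd_pow_self p k.pos.ne') (by omega)
    have h2 : 1 ≤ q ^ (n - i) := Nat.one_le_pow _ _ (by omega)
    have h3 : p ∣ q ^ (n - i) - (q ^ (n - i) - 1) := Nat.dvd_sub h1 hdvd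
    rw [Nat.sub_sub_self h2] at h3
    exact hp.out.not_dvd_one h3
  have e3 : ∏ i ∈ Finset.range n, (q ^ (n - i) - 1) ≠ 0 := fun h => e2 (h ▸ dvd_zero p)
  rw [e1, Nat.factorization_mul (by positivity) e3, Finsupp.add_apply,
    Nat.factorization_eq_zero_of_not_dvd e2, add_zero, Nat.factorization_pow, Finsupp.smul_apply,
    hk, hp.out.factorization_pow, Finsupp.single_eq_same, smul_eq_mul, mul_comm, pow_mul]

omit [Finite K] in
theorem unit_eq_one (c : Kˣ) (m : ℕ) (h : c ^ p ^ m = 1) : c = 1 := by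
  have h1 : ((c : K) - 1) ^ p ^ m = 0 := by
    rw [sub_pow_char_pow, one_pow, ← Units.val_pow_eq_pow_val, h, Units.val_one, sub_self]
  have h2 : (c : K) - 1 = 0 := eq_zero_of_pow_eq_zero h1
  ext
  rw [Units.val_one]
  exact sub_eq_zero.1 h2

omit [Finite K] in
theorem scalar_eq_one (hn : 0 < n) (c : Kˣ) (h : GeneralLinearGroup.scalar (Fin n) c = 1) :
    c = 1 := by
  have h1 := congrArg (fun M : GL (Fin n) K => (M : Matrix (Fin n) (Fin n) K) ⟨0, hn⟩ ⟨0, hn⟩) h
  simp only [GeneralLinearGroup.coe_scalar, Matrix.scalar_apply, Matrix.diagonal_apply_eq,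
    Units.val_one, Matrix.one_apply_eq] at h1
  exact Units.ext h1

omit [Finite K] in
/-- Scalar multiples of nontrivial elements of a Sylow subgroup are singular. -/
theorem singular_scalar_mul (P : Sylow p (GL (Fin n) K)) (hn : 0 < n) (c : Kˣ)
    (u : GL (Fin n) K) (hu : u ∈ P) (hu1 : u ≠ 1) :
    p ∣ orderOf (GeneralLinearGroup.scalar (Fin n) c * u) := by
  set N := orderOf (GeneralLinearGroup.scalar (Fin n) c * u) with hN
  have h1 : (GeneralLinearGroup.scalar (Fin n) c * u) ^ N = 1 := pow_orderOf_eq_one _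
  have hcomm : Commute (GeneralLinearGroup.scalar (Fin n) c) u :=
    GeneralLinearGroup.scalar_commute c u
  rw [hcomm.mul_pow, ← map_pow] at h1
  obtain ⟨m, hm⟩ := P.isPGroup' ⟨u, hu⟩
  have hm' : u ^ p ^ m = 1 := congrArg Subtype.val hm
  have h2 : GeneralLinearGroup.scalar (Fin n) (c ^ N) = (u ^ N)⁻¹ := eq_inv_of_mul_eq_one_left h1
  have h3 : c ^ N = 1 := by
    apply unit_eq_one p K _ m
    apply scalar_eq_one K n hn
    rw [map_pow, h2, inv_pow, ← pow_mul, mul_comm, pow_mul, hm', one_pow, inv_one]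
  rw [h3, map_one, one_mul] at h1
  have h4 : orderOf u ∣ N := orderOf_dvd_of_pow_eq_one h1
  have h5 : orderOf u ∣ p ^ m := orderOf_dvd_of_pow_eq_one hm'
  obtain ⟨j, -, hj⟩ := (Nat.dvd_prime_pow hp.out).1 h5
  have h6 : j ≠ 0 := by
    rintro rfl
    rw [pow_zero, orderOf_eq_one_iff] at hj
    exact hu1 hj
  exact (dvd_pow_self p h6).trans (hj ▸ h4)

/-- The family: the Sylow subgroup with the identity replaced by a scalar. -/
noncomputable def fam (P : Sylow p (GL (Fin n) K)) (c : Kˣ) (u : P) : GL (Fin n) K :=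
  open Classical in
  GeneralLinearGroup.scalar (Fin n) (if u = 1 then c else 1) * u

omit [Finite K] in
theorem fam_quot (P : Sylow p (GL (Fin n) K)) (hn : 0 < n) (c : Kˣ) (u v : P) (huv : u ≠ v) :
    p ∣ orderOf (fam p K n P c u * (fam p K n P c v)⁻¹) := by
  classical
  have e : fam p K n P c u * (fam p K n P c v)⁻¹ =
      GeneralLinearGroup.scalar (Fin n) ((if u = 1 then c else 1) * (if v = 1 then c else 1)⁻¹) *
        ((u * v⁻¹ : P) : GL (Fin n) K) := by
    have hcomm := GeneralLinearGroup.scalar_commute (n := Fin n)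
      ((if v = 1 then c else 1)⁻¹) ((u : GL (Fin n) K) * (v : GL (Fin n) K)⁻¹)
    have h0 : ((u * v⁻¹ : P) : GL (Fin n) K) = (u : GL (Fin n) K) * (v : GL (Fin n) K)⁻¹ := rfl
    rw [h0, map_mul, _root_.mul_assoc, hcomm, map_inv]
    unfold fam
    rw [_root_.mul_inv_rev, _root_.mul_assoc, _root_.mul_assoc]
  rw [e]
  apply singular_scalar_mul p K n P hn _ _ (u * v⁻¹).2
  intro h
  apply huv
  rw [← mul_inv_eq_one]
  exact Subtype.ext h

omit [Finite K] in
theorem fam_inj (P : Sylow p (GL (Fin n) K)) (hn : 0 < n) (c : Kˣ) :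
    Function.Injective (fam p K n P c) := by
  intro u v huv
  by_contra hne
  have := fam_quot p K n P hn c u v hne
  rw [huv, mul_inv_cancel, orderOf_one] at this
  exact hp.out.not_dvd_one this

omit [Finite K] in
theorem fam_singular (P : Sylow p (GL (Fin n) K)) (hn : 0 < n) (c : Kˣ) :
    IsSingularFamily p (Set.range (fam p K n P c)) := by
  rintro _ ⟨u, rfl⟩ _ ⟨v, rfl⟩ hne
  exact fam_quot p K n P hn c u v (fun h => hne (by rw [h]))

theorem fam_ncard (P : Sylow p (GL (Fin n) K)) (hn : 0 < n) (c : Kˣ) :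
    (Set.range (fam p K n P c)).ncard = Nat.card K ^ (n * (n - 1) / 2) := by
  rw [← Set.image_univ, Set.ncard_image_of_injective _ (fam_inj p K n P hn c), Set.ncard_univ,
    ← card_sylow p K n P]
  rfl

theorem fam_not_translate (P : Sylow p (GL (Fin n) K)) (hn : 2 ≤ n) (c : Kˣ) (hc : c ≠ 1)
    (P' : Sylow p (GL (Fin n) K)) (g h : GL (Fin n) K) :
    Set.range (fam p K n P c) ≠ doubleTranslate g h (P' : Set (GL (Fin n) K)) := by
  intro hF
  have hcard : 1 < Nat.card P := by
    rw [card_sylow p K n P]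
    apply Nat.one_lt_pow
    · have : 1 ≤ n * (n - 1) / 2 := by
        rw [Nat.le_div_iff_mul_le (by norm_num)]
        calc 1 * 2 ≤ 2 * 1 := by norm_num
          _ ≤ n * (n - 1) := Nat.mul_le_mul hn (by omega)
      omega
    · exact Finite.one_lt_card
  have : Nontrivial P := Finite.one_lt_card_iff_nontrivial.1 hcard
  obtain ⟨u, hu⟩ := exists_ne (1 : P)
  have h1 : fam p K n P c 1 ∈ doubleTranslate g h (P' : Set (GL (Fin n) K)) := hF ▸ ⟨1, rfl⟩
  have h2 : fam p K n P c u ∈ doubleTranslate g h (P' : Set (GL (Fin n) K)) := hF ▸ ⟨u, rfl⟩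
  obtain ⟨m, hm⟩ := quot_pow p P' g h _ _ h1 h2
  obtain ⟨m', hm'⟩ := P.isPGroup' (u⁻¹)
  have hm'' : ((u⁻¹ : P) : GL (Fin n) K) ^ p ^ m' = 1 := congrArg Subtype.val hm'
  have e : fam p K n P c 1 * (fam p K n P c u)⁻¹ =
      GeneralLinearGroup.scalar (Fin n) c * ((u⁻¹ : P) : GL (Fin n) K) := by
    simp [fam, hu]
  have hcomm : Commute (GeneralLinearGroup.scalar (Fin n) c) ((u⁻¹ : P) : GL (Fin n) K) :=
    GeneralLinearGroup.scalar_commute c _
  rw [e, hcomm.mul_pow] at hm
  have h3 : (GeneralLinearGroup.scalar (Fin n) c) ^ p ^ (m + m') = 1 := by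
    have h4 := congrArg (fun x => x ^ p ^ m') hm
    simp only [one_pow] at h4
    rw [(hcomm.pow_pow _ _).mul_pow, ← pow_mul, ← pow_mul, mul_comm (p ^ m) (p ^ m'),
      pow_mul ((u⁻¹ : P) : GL (Fin n) K), hm'', one_pow, mul_one, ← pow_add, add_comm] at h4
    exact h4
  rw [← map_pow] at h3
  exact hc (unit_eq_one p K c _ (scalar_eq_one K n (by omega) _ h3))

theorem not_holds (hn : 2 ≤ n) (hq : 2 < Nat.card K) : ¬ Holds p K n := by
  intro hH
  obtain ⟨c, hc⟩ : ∃ c : Kˣ, c ≠ 1 := by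
    have h1 : 1 < Nat.card Kˣ := by rw [Nat.card_units]; omega
    have : Nontrivial Kˣ := Finite.one_lt_card_iff_nontrivial.1 h1
    exact exists_ne 1
  let P : Sylow p (GL (Fin n) K) := default
  have hmax : IsMaximum p (doubleTranslate 1 1 (P : Set (GL (Fin n) K))) :=
    (hH _).2 ⟨P, 1, 1, rfl⟩
  have hP : doubleTranslate 1 1 (P : Set (GL (Fin n) K)) = (P : Set (GL (Fin n) K)) := by
    ext x
    simp [doubleTranslate]
  rw [hP] at hmax
  have hcard : (P : Set (GL (Fin n) K)).ncard = Nat.card K ^ (n * (n - 1) / 2) := by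
    rw [← card_sylow p K n P]
    rfl
  have hF : IsMaximum p (Set.range (fam p K n P c)) := by
    refine ⟨fam_singular p K n P (by omega) c, fun F' hF' => ?_⟩
    rw [fam_ncard p K n P (by omega) c, ← hcard]
    exact hmax.2 F' hF'
  obtain ⟨P', g, h, he⟩ := (hH _).1 hF
  exact fam_not_translate p K n P hn c hc P' g h he

end field

section three

instance : Fact (Nat.Prime 3) := ⟨Nat.prime_three⟩

/-- The matrix with rows `(1,1)` and `(0,1)`. -/
def matA : GL (Fin 2) (ZMod 3) := ⟨!![1, 1; 0, 1], !![1, 2; 0, 1], by decide, by decide⟩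

/-- The matrix with rows `(1,0)` and `(1,1)`. -/
def matB : GL (Fin 2) (ZMod 3) := ⟨!![1, 0; 1, 1], !![1, 0; 2, 1], by decide, by decide⟩

/-- The family consisting of the identity and the two matrices. -/
def famAB : Set (GL (Fin 2) (ZMod 3)) := {1, matA, matB}

theorem A_cube : matA ^ 3 = 1 := Units.ext (by decide)

theorem B_cube : matB ^ 3 = 1 := Units.ext (by decide)

theorem AB_cube : (matA * matB) ^ 3 ≠ 1 := by
  intro h
  have := congrArg Units.val h
  revert this
  decide

theorem A_ne : matA ≠ 1 := by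
  intro h
  have := congrArg Units.val h
  revert this
  decide

theorem B_ne : matB ≠ 1 := by
  intro h
  have := congrArg Units.val h
  revert this
  decide

theorem AB_ne : matA ≠ matB := by
  intro h
  have := congrArg Units.val h
  revert this
  decide

theorem three_dvd_A : 3 ∣ orderOf matA := by
  rw [orderOf_eq_prime A_cube A_ne]

theorem three_dvd_B : 3 ∣ orderOf matB := by
  rw [orderOf_eq_prime B_cube B_ne]

theorem three_dvd_AB : 3 ∣ orderOf (matA * matB⁻¹) := by
  have h6 : orderOf (matA * matB⁻¹) ∣ 6 := orderOf_dvd_of_pow_eq_one (Units.ext (by decide))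
  have h2 : ¬ orderOf (matA * matB⁻¹) ∣ 2 := by
    intro h
    have := congrArg Units.val (orderOf_dvd_iff_pow_eq_one.1 h)
    revert this
    decide
  have hle := Nat.le_of_dvd (by norm_num) h6
  interval_cases orderOf (matA * matB⁻¹) <;> revert h6 h2 <;> decide

theorem inv_swap {G : Type} [Group G] (g h : G) : orderOf (h * g⁻¹) = orderOf (g * h⁻¹) := by
  rw [← orderOf_inv, _root_.mul_inv_rev, inv_inv]

theorem famAB_singular : IsSingularFamily 3 famAB := by
  have h1 : 3 ∣ orderOf (matA * 1⁻¹) := by rw [inv_one, mul_one]; exact three_dvd_A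
  have h2 : 3 ∣ orderOf (matB * 1⁻¹) := by rw [inv_one, mul_one]; exact three_dvd_B
  rintro g (rfl | rfl | rfl) h (rfl | rfl | rfl) hne
  · exact absurd rfl hne
  · rw [inv_swap]; exact h1
  · rw [inv_swap]; exact h2
  · exact h1
  · exact absurd rfl hne
  · exact three_dvd_AB
  · exact h2
  · rw [inv_swap]; exact three_dvd_AB
  · exact absurd rfl hne

theorem famAB_ncard : famAB.ncard = 3 := by
  have h : famAB = ({1, matA, matB} : Set _) := rfl
  rw [h, Set.ncard_insert_of_notMem, Set.ncard_pair AB_ne]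
  simp only [Set.mem_insert_iff, Set.mem_singleton_iff, not_or]
  exact ⟨fun h => A_ne h.symm, fun h => B_ne h.symm⟩

theorem card_GL23 : Nat.card (GL (Fin 2) (ZMod 3)) = 48 := by
  rw [Matrix.card_GL_field]
  simp [ZMod.card]

theorem famAB_maximum : IsMaximum 3 famAB := by
  refine ⟨famAB_singular, fun F' hF' => ?_⟩
  rw [famAB_ncard]
  have : Fact (Nat.Prime 2) := ⟨Nat.prime_two⟩
  let C : Sylow 2 (GL (Fin 2) (ZMod 3)) := default
  have h48 : Nat.factorization 48 2 = 4 := by
    rw [show (48 : ℕ) = 2 ^ 4 * 3 by norm_num, Nat.factorization_mul (by norm_num) (by norm_num),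
      Finsupp.add_apply, Nat.Prime.factorization_pow Nat.prime_two, Finsupp.single_eq_same,
      Nat.factorization_eq_zero_of_not_dvd (by norm_num)]
  have hC : Nat.card C = 16 := by
    rw [C.card_eq_multiplicity, card_GL23, h48]
    norm_num
  have hi : (C : Subgroup (GL (Fin 2) (ZMod 3))).index = 3 := by
    have h1 := (C : Subgroup (GL (Fin 2) (ZMod 3))).card_mul_index
    rw [card_GL23] at h1
    have hC' : Nat.card (C : Subgroup (GL (Fin 2) (ZMod 3))) = 16 := hC
    rw [hC'] at h1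
    omega
  have hC' : Nat.card (C : Subgroup (GL (Fin 2) (ZMod 3))) = 16 := hC
  have hfin := ncard_le_index 3 (C : Subgroup (GL (Fin 2) (ZMod 3)))
    (by rw [hC']; norm_num) F' hF'
  rwa [hi] at hfin

theorem famAB_robust (P : Sylow 3 (GL (Fin 2) (ZMod 3))) (g h : GL (Fin 2) (ZMod 3)) :
    ¬ ∀ x ∈ famAB, ∃ c : (ZMod 3)ˣ, ∃ s ∈ doubleTranslate g h (P : Set (GL (Fin 2) (ZMod 3))),
      x = GeneralLinearGroup.scalar (Fin 2) c * s := by
  intro H
  have hcard : Nat.card P = 3 := by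
    rw [card_sylow 3 (ZMod 3) 2 P]
    simp
  have hcube : ∀ s ∈ P, s ^ 3 = 1 := by
    intro s hs
    have := pow_card_eq_one' (x := (⟨s, hs⟩ : P))
    rw [show Nat.card ↥P = 3 from hcard] at this
    exact congrArg Subtype.val this
  obtain ⟨c0, _, ⟨s0, hs0, rfl⟩, h0⟩ := H 1 (Or.inl rfl)
  obtain ⟨c1, _, ⟨s1, hs1, rfl⟩, h1⟩ := H matA (Or.inr (Or.inl rfl))
  obtain ⟨c2, _, ⟨s2, hs2, rfl⟩, h2⟩ := H matB (Or.inr (Or.inr rfl))
  have key : ∀ (x s : GL (Fin 2) (ZMod 3)) (c : (ZMod 3)ˣ), s ∈ P → x ^ 3 = 1 →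
      x = GeneralLinearGroup.scalar (Fin 2) c * (g * s * h) → x = g * (s * s0⁻¹) * g⁻¹ := by
    intro x s c hs hx3 hx
    have e : x = GeneralLinearGroup.scalar (Fin 2) (c * c0⁻¹) * (g * (s * s0⁻¹) * g⁻¹) := by
      have hh : h = s0⁻¹ * g⁻¹ * (GeneralLinearGroup.scalar (Fin 2) c0)⁻¹ := by
        have h0' : GeneralLinearGroup.scalar (Fin 2) c0 * g * s0 * h = 1 := by
          rw [h0]; group
        have h3 : h = (GeneralLinearGroup.scalar (Fin 2) c0 * g * s0)⁻¹ :=
          (inv_eq_of_mul_eq_one_right h0').symm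
        rw [h3]
        group
      have hc2 := GeneralLinearGroup.scalar_commute (n := Fin 2) c0⁻¹ (g * (s * s0⁻¹) * g⁻¹)
      rw [map_mul, _root_.mul_assoc (GeneralLinearGroup.scalar (Fin 2) c), hc2, hx, hh, map_inv]
      group
    have hcomm : Commute (GeneralLinearGroup.scalar (Fin 2) (c * c0⁻¹)) (g * (s * s0⁻¹) * g⁻¹) :=
      GeneralLinearGroup.scalar_commute _ _
    have hc : (GeneralLinearGroup.scalar (Fin 2) (c * c0⁻¹)) ^ 3 = 1 := by
      have h4 := hx3
      rw [e, hcomm.mul_pow, conj_pow, hcube _ (P.mul_mem hs (P.inv_mem hs0))] at h4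
      simpa using h4
    rw [← map_pow] at hc
    have hc1 : c * c0⁻¹ = 1 :=
      unit_eq_one 3 (ZMod 3) _ 1 (by rw [pow_one]; exact scalar_eq_one (ZMod 3) 2 (by norm_num) _ hc)
    rw [e, hc1, map_one, one_mul]
  have e1 := key _ _ _ hs1 A_cube h1
  have e2 := key _ _ _ hs2 B_cube h2
  apply AB_cube
  have e3 : matA * matB = g * (s1 * s0⁻¹ * (s2 * s0⁻¹)) * g⁻¹ := by
    rw [e1, e2]; group
  rw [e3, conj_pow, hcube _ (P.mul_mem (P.mul_mem hs1 (P.inv_mem hs0))
    (P.mul_mem hs2 (P.inv_mem hs0)))]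
  group

end three

/-- For every finite field with more than two elements and every `n ≥ 2`, the maximum
`p`-singular families are not exactly the double-translates of the Sylow `p`-subgroups; and in
`GL (2, 3)` this fails even up to multiplying the elements by scalars. -/
theorem result :
    (∀ (p : ℕ) [Fact p.Prime] (K : Type) [Field K] [Finite K] [CharP K p] (n : ℕ), 2 ≤ n →
      2 < Nat.card K →
        (∃ F : Set (GL (Fin n) K), IsSingularFamily p F ∧
          F.ncard = Nat.card K ^ (n * (n - 1) / 2) ∧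
          ∀ (P : Sylow p (GL (Fin n) K)) (g h : GL (Fin n) K), F ≠ doubleTranslate g h P) ∧
        ¬ Holds p K n) ∧
    (∃ F : Set (GL (Fin 2) (ZMod 3)), IsMaximum 3 F ∧ F.ncard = 3 ∧
      ∀ (P : Sylow 3 (GL (Fin 2) (ZMod 3))) (g h : GL (Fin 2) (ZMod 3)),
        ¬ ∀ x ∈ F, ∃ c : (ZMod 3)ˣ, ∃ s ∈ doubleTranslate g h (P : Set (GL (Fin 2) (ZMod 3))),
          x = GeneralLinearGroup.scalar (Fin 2) c * s) := by
  constructor
  · intro p _ K _ _ _ n hn hq
    refine ⟨?_, not_holds p K n hn hq⟩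
    obtain ⟨c, hc⟩ : ∃ c : Kˣ, c ≠ 1 := by
      have h1 : 1 < Nat.card Kˣ := by rw [Nat.card_units]; omega
      have : Nontrivial Kˣ := Finite.one_lt_card_iff_nontrivial.1 h1
      exact exists_ne 1
    let P : Sylow p (GL (Fin n) K) := default
    exact ⟨Set.range (fam p K n P c), fam_singular p K n P (by omega) c,
      fam_ncard p K n P (by omega) c, fun P' g h => fam_not_translate p K n P hn c hc P' g h⟩
  · exact ⟨famAB, famAB_maximum, famAB_ncard, fun P g h => famAB_robust P g h⟩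

end Pool.Agent.Results.MP_020c1a_co.SylowFamilies
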